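import Pool.Agent.MP_92f1cb_al.H14.Main
import Pool.Agent.MP_92f1cb_al.H14.Stmt

set_option autoImplicit false

namespace Pool.Agent.Results.MP_92f1cb_al.CartanDet

open Pool.Agent.MP_92f1cb_al.H14

/-- Over any field: a finite-dimensional graded algebra with degree-zero part a product of copies
of the field, whose Hochschild homology vanishes in all large degrees, has graded Cartan
determinant one. -/
theorem result :
    ∀ (k : Type) [Field k] (A : Type) [Ring A] [Algebra k A] [FiniteDimensional k A]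
      (𝒜 : ℕ → Submodule k A) [GradedAlgebra 𝒜]
      (ι : Type) [Fintype ι] [DecidableEq ι] (e : ι → A),
      DegreeZeroSplit 𝒜 e → (∃ N : ℕ, HHVanishesAbove k A N) →
        ∃ C : Matrix ι ι (Polynomial ℤ), IsGradedCartan 𝒜 e C ∧ C.det = 1 := by
  intro k _ A _ _ _ 𝒜 _ ι _ _ e ⟨he, hne, h0⟩ ⟨N, hN⟩
  obtain ⟨b, hb, hH⟩ := hN.elim
  obtain ⟨C, hC⟩ := exists_cartan k A 𝒜 ι e
  exact ⟨C, hC, cartan_det_eq_one k A 𝒜 ι e he hne h0 C hC b hb hH⟩

end Pool.Agent.Results.MP_92f1cb_al.CartanDet
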