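import Pool.Agent.MP_92f1cb_al.H14.Main
import Pool.Agent.MP_92f1cb_al.H14.Res
import Pool.Agent.MP_92f1cb_al.H14.Stmt
import Pool.Agent.MP_92f1cb_al.H22G.G5
import Pool.Agent.MP_92f1cb_al.H22G.Stmt

set_option autoImplicit false

namespace Pool.Agent.Results.MP_92f1cb_al.GorensteinOne

open Pool.Agent.MP_92f1cb_al.H14 Pool.Agent.MP_92f1cb_al.H22G

/-- Han's property over any field for graded algebras of injective dimension at most one with
degree-zero part a product of copies of the field: vanishing of high Hochschild homology forces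
global dimension at most one. -/
theorem result :
    ∀ (k : Type) [Field k] (A : Type) [Ring A] [Algebra k A] [FiniteDimensional k A]
      (𝒜 : ℕ → Submodule k A) [GradedAlgebra 𝒜] (ι : Type) [Fintype ι] (e : ι → A),
      DegreeZeroSplit 𝒜 e → InjDimLEOne A → (∃ N : ℕ, HHVanishesAbove k A N) →
        GlDimLE A 1 := by
  intro k _ A _ _ _ 𝒜 _ ι _ e ⟨he, hne, h0⟩ ⟨I, _, _, f, hf, hI, hI'⟩ ⟨N, hN⟩ M
  classical
  obtain ⟨b, hb, hH⟩ := hN.elim
  obtain ⟨C, hC⟩ := exists_cartan k A 𝒜 ι e
  exact exists_finite_resolution A 1 M (pd_le_one k A 𝒜 ι e he hne h0 C hC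
    (cartan_det_eq_one k A 𝒜 ι e he hne h0 C hC b hb hH) (extends_of_inj f hf hI hI') M)

end Pool.Agent.Results.MP_92f1cb_al.GorensteinOne
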