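import Pool.Agent.MP_92f1cb_al.H14.Main
import Pool.Agent.MP_92f1cb_al.H14.K2
import Pool.Agent.MP_92f1cb_al.H14.K3
import Pool.Agent.MP_92f1cb_al.H14.Res
import Pool.Agent.MP_92f1cb_al.H14.Stmt

set_option autoImplicit false

namespace Pool.Agent.Results.MP_92f1cb_al.Koszul

open Pool.Agent.MP_92f1cb_al.H14

/-- Han's property over any field for graded algebras whose degree-zero part has a graded
projective resolution with `n`-th term generated in one degree `δ n`, `δ` strictly increasing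
(Koszul: `δ n = n`; `N`-Koszul: `δ (2m) = mN`, `δ (2m+1) = mN + 1`). -/
theorem result :
    ∀ (k : Type) [Field k] (A : Type) [Ring A] [Algebra k A] [FiniteDimensional k A]
      (𝒜 : ℕ → Submodule k A) [GradedAlgebra 𝒜] (ι : Type) [Fintype ι] (e : ι → A),
      DegreeZeroSplit 𝒜 e →
      ∀ (δ : ℕ → ℕ), StrictMono δ →
      ∀ (P : ℕ → Type) [∀ n, AddCommGroup (P n)] [∀ n, Module k (P n)] [∀ n, Module A (P n)]
        [∀ n, IsScalarTower k A (P n)] (ℳ : ∀ n, ℕ → Submodule k (P n))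
        (d : ∀ n, P (n + 1) →ₗ[A] P n) (ε : P 0 →ₗ[A] A ⧸ posIdeal 𝒜),
      (∀ n, GenInDegree 𝒜 (ℳ n) (δ n)) →
      (∀ n j, ∀ x ∈ ℳ (n + 1) j, d n x ∈ ℳ n j) → IsResolution d ε →
      (∃ N : ℕ, HHVanishesAbove k A N) → ∃ D : ℕ, GlDimLE A D := by
  intro k _ A _ _ _ 𝒜 _ ι _ e ⟨he, hne, h0⟩ δ hδ P _ _ _ _ ℳ d ε hg hd ⟨hex, hε, hsurj⟩ ⟨N, hN⟩
  classical
  obtain ⟨b, hb, hH⟩ := hN.elim
  haveI : ∀ n, Module.Projective A (P n) := fun n => (hg n).1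
  letI : ∀ n, DirectSum.Decomposition (ℳ n) := fun n => (hg n).2.1.some
  haveI : ∀ n, SetLike.GradedSMul 𝒜 (ℳ n) := fun n => (hg n).2.2.1
  obtain ⟨C, hC⟩ := exists_cartan k A 𝒜 ι e
  obtain ⟨n₀, hz⟩ := eventually_zero k A 𝒜 ι e he h0 C hC
    (cartan_det_eq_one k A 𝒜 ι e he hne h0 C hC b hb hH) δ hδ P ℳ (fun n => (hg n).2.2.2) d hd
    hex ε hε
  exact ⟨n₀, fun M => exists_finite_resolution A n₀ M
    (pd_le_of_resolution k A 𝒜 ι e he h0 P d hex ε hε hsurj n₀ hz M)⟩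

end Pool.Agent.Results.MP_92f1cb_al.Koszul
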