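import Pool.Agent.MP_92f1cb_al.H21T.Asm
import Pool.Agent.MP_92f1cb_al.H21T.Wm
import Pool.Agent.MP_92f1cb_al.H21T.Calc
import Pool.Agent.MP_92f1cb_al.H21T.Q
import Pool.Agent.MP_92f1cb_al.H21T.Gen
import Pool.Agent.MP_92f1cb_al.H21T.K
import Pool.Agent.MP_92f1cb_al.H21T.Tot
import Pool.Agent.MP_92f1cb_al.H21T.Pf
import Pool.Agent.MP_92f1cb_al.H21T.Mx
import Pool.Agent.MP_92f1cb_al.H21T.Tr2
import Pool.Agent.MP_92f1cb_al.H21T.Tri
import Pool.Agent.MP_92f1cb_al.H21T.Cob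
import Pool.Agent.MP_92f1cb_al.H21T.Gl2
import Pool.Agent.MP_92f1cb_al.H21T.BaseEx
import Pool.Agent.MP_92f1cb_al.H21T.H42StepA
import Pool.Agent.MP_92f1cb_al.H21T.StepS
import Pool.Agent.MP_92f1cb_al.H21T.G1
import Pool.Agent.MP_92f1cb_al.H21T.G2
import Pool.Agent.MP_92f1cb_al.H21T.G3
import Pool.Agent.MP_92f1cb_al.H21T.G4
import Pool.Agent.MP_92f1cb_al.H21T.G5
import Pool.Agent.MP_92f1cb_al.H21T.G6

set_option autoImplicit false

namespace Pool.Agent.Results.MP_92f1cb_al.TwoSimples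

open Pool.Agent.MP_92f1cb_al.H14 Pool.Agent.MP_92f1cb_al.H21T

/-- Over every field that has a nonzero element which is not a root of unity there is a
finite-dimensional graded algebra with degree-zero part `k × k`, vanishing Hochschild homology
in all positive degrees, and infinite global dimension. -/
theorem result :
    ∀ (k : Type) [Field k], (∃ q : k, q ≠ 0 ∧ ∀ n : ℕ, 0 < n → q ^ n ≠ 1) →
      ∃ (A : Type) (_ : Ring A) (_ : Algebra k A) (_ : FiniteDimensional k A)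
        (𝒜 : ℕ → Submodule k A) (_ : GradedAlgebra 𝒜) (e : Fin 2 → A),
        DegreeZeroSplit 𝒜 e ∧ HHVanishesAbove k A 0 ∧ ¬ ∃ D : ℕ, GlDimLE A D := by
  intro k _ hk
  exact assemble sWM sCalc sAdp sQ sGen sK1 sK2 sK3 sTot sPf sSub sTr2 sGr2
    (sGl2 sWM sSub sPd sTri sCob sPf) sBase H42.sA sAs sMx sG1 sG2 sG3 sG4 sG5 sG6 sG7 k hk

end Pool.Agent.Results.MP_92f1cb_al.TwoSimples
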